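import Pool.Agent.Helper17.TH.GoalsII

/-!
# Project TH, packet S_TOR
-/

set_option autoImplicit false

namespace Pool.Agent.Helper65.TH

open NumberField Module IsDedekindDomain TensorProduct Polynomial IntermediateField
open Pool.Agent.Helper51.SigLeo Pool.Agent.Helper51.RP
open Pool.Agent.Helper38.FD (Chr CutsOut LeopoldtFor)
open Pool.Agent.Helper17.TH

section cyc

variable (p : ℕ) [Fact p.Prime] (K : Type) [Field K] [NumberField K]

instance enough (i : ℕ) : HasEnoughRootsOfUnity (AlgebraicClosure K) (p ^ i) := by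
  have : NeZero ((p ^ i : ℕ) : AlgebraicClosure K) :=
    ⟨Nat.cast_ne_zero.2 (pow_ne_zero _ (Fact.out : p.Prime).ne_zero)⟩
  infer_instance

/-- The cyclotomic character of `Gal(Ω/K)`. -/
noncomputable def cyc : (AlgebraicClosure K ≃ₐ[K] AlgebraicClosure K) →* ℤ_[p]ˣ :=
  (cyclotomicCharacter (AlgebraicClosure K) p).comp
    (MulSemiringAction.toRingAut (AlgebraicClosure K ≃ₐ[K] AlgebraicClosure K) (AlgebraicClosure K))

theorem cyc_spec (g : AlgebraicClosure K ≃ₐ[K] AlgebraicClosure K) (n : ℕ)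
    (t : AlgebraicClosure K) (ht : t ^ p ^ n = 1) :
    g t = t ^ ((cyc p K g).val.toZModPow n).val :=
  cyclotomicCharacter.spec p
    (MulSemiringAction.toRingAut (AlgebraicClosure K ≃ₐ[K] AlgebraicClosure K)
      (AlgebraicClosure K) g) t ht

theorem exists_cyc (d : ℕ) (hd : 0 < d) : ∃ g, (cyc p K g) ^ d ≠ 1 := by
  by_contra hcon
  push Not at hcon
  have hp : p.Prime := Fact.out
  have key : ∀ c : ℕ, (p ^ c).totient ≤ finrank ℚ K * d := by
    intro c
    obtain ⟨ζ, hζ⟩ := HasEnoughRootsOfUnity.exists_primitiveRoot (AlgebraicClosure K) (p ^ c)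
    have hpos : 0 < p ^ c := pow_pos hp.pos c
    have hζ1 : ζ ^ p ^ c = 1 := hζ.pow_eq_one
    have hint : IsIntegral K ζ := Algebra.IsIntegral.isIntegral ζ
    -- the conjugates
    have hcard : (minpoly K ζ).natDegree ≤ d := by
      have h1 : Fintype.card ((minpoly K ζ).rootSet (AlgebraicClosure K)) =
          (minpoly K ζ).natDegree :=
        card_rootSet_eq_natDegree (Algebra.IsSeparable.isSeparable K ζ)
          (IsAlgClosed.splits _)
      rw [← h1]
      classical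
      -- the roots of `X^d - 1` in `ℤ_p`
      have h2 : ∀ x : (minpoly K ζ).rootSet (AlgebraicClosure K), ∃ u : ℤ_[p],
          u ∈ (nthRoots d (1 : ℤ_[p])).toFinset ∧ (x : AlgebraicClosure K) =
            ζ ^ (u.toZModPow c).val := by
        intro x
        have h3 : IsConjRoot K ζ x := (isConjRoot_iff_mem_minpoly_rootSet hint).2 x.2
        obtain ⟨g, hg⟩ := isConjRoot_iff_exists_algEquiv.1 h3.symm
        refine ⟨(cyc p K g).val, ?_, ?_⟩
        · rw [Multiset.mem_toFinset, mem_nthRoots hd, ← Units.val_pow_eq_pow_val, hcon g,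
            Units.val_one]
        · rw [← hg]
          exact cyc_spec p K g c ζ hζ1
      choose f hf1 hf2 using h2
      have h4 : Function.Injective (fun x => (⟨f x, hf1 x⟩ :
          (nthRoots d (1 : ℤ_[p])).toFinset)) := by
        intro x y hxy
        have h5 : f x = f y := congrArg Subtype.val hxy
        apply Subtype.ext
        rw [hf2 x, hf2 y, h5]
      calc Fintype.card ((minpoly K ζ).rootSet (AlgebraicClosure K))
          ≤ Fintype.card ((nthRoots d (1 : ℤ_[p])).toFinset) := Fintype.card_le_of_injective _ h4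
        _ = (nthRoots d (1 : ℤ_[p])).toFinset.card := Fintype.card_coe _
        _ ≤ Multiset.card (nthRoots d (1 : ℤ_[p])) := Multiset.toFinset_card_le _
        _ ≤ d := card_nthRoots d 1
    -- the degree over `ℚ`
    have hfin : FiniteDimensional K K⟮ζ⟯ := adjoin.finiteDimensional hint
    have hfin2 : FiniteDimensional ℚ K⟮ζ⟯ := Module.Finite.trans K _
    have h6 : finrank ℚ K⟮ζ⟯ = finrank ℚ K * (minpoly K ζ).natDegree := by
      rw [← adjoin.finrank hint, finrank_mul_finrank]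
    let z : K⟮ζ⟯ := ⟨ζ, mem_adjoin_simple_self K ζ⟩
    have hz : IsPrimitiveRoot z (p ^ c) := by
      refine IsPrimitiveRoot.of_map_of_injective (f := algebraMap K⟮ζ⟯ (AlgebraicClosure K)) ?_
        (algebraMap K⟮ζ⟯ (AlgebraicClosure K)).injective
      exact hζ
    have h7 : (minpoly ℚ z).natDegree = (p ^ c).totient := by
      rw [← cyclotomic_eq_minpoly_rat hz hpos, natDegree_cyclotomic]
    calc (p ^ c).totient = (minpoly ℚ z).natDegree := h7.symm
      _ ≤ finrank ℚ K⟮ζ⟯ := minpoly.natDegree_le z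
      _ = finrank ℚ K * (minpoly K ζ).natDegree := h6
      _ ≤ finrank ℚ K * d := Nat.mul_le_mul_left _ hcard
  -- a contradiction for large `c`
  have h8 := key (finrank ℚ K * d + 2)
  rw [Nat.totient_prime_pow_succ hp] at h8
  have h9 : finrank ℚ K * d + 1 < p ^ (finrank ℚ K * d + 1) := Nat.lt_pow_self hp.one_lt
  have h10 : p ^ (finrank ℚ K * d + 1) * 1 ≤ p ^ (finrank ℚ K * d + 1) * (p - 1) :=
    Nat.mul_le_mul_left _ (by have := hp.two_le; omega)
  omega

theorem exists_good (d : ℕ) (hd : 0 < d) (η₁ : Chr K (AlgebraicClosure K) ℂ_[p]) (hη : η₁ ≠ 1) :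
    ∃ g, η₁ g ≠ 1 ∧ (cyc p K g) ^ d ≠ 1 := by
  by_contra hcon
  push Not at hcon
  obtain ⟨h, hh⟩ := exists_cyc p K d hd
  have h1 : ∃ g₁, η₁ g₁ ≠ 1 := by
    by_contra h2
    push Not at h2
    exact hη (MonoidHom.ext h2)
  obtain ⟨g₁, hg₁⟩ := h1
  have h3 : η₁ h = 1 := by
    by_contra h4
    exact hh (hcon h h4)
  have h5 : η₁ (g₁ * h) ≠ 1 := by rw [map_mul, h3, mul_one]; exact hg₁
  have h6 := hcon (g₁ * h) h5
  rw [map_mul, mul_pow, hcon g₁ hg₁, one_mul] at h6
  exact hh h6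

end cyc

theorem exists_dvd (p : ℕ) [Fact p.Prime] (u : ℤ_[p]) (hu : u - 1 ≠ 0) (c : ℕ)
    (hc : (u - 1).valuation < c) (b : ℤ_[p]) (hb : (p : ℤ_[p]) ^ c ∣ u - b) :
    b - 1 ∣ (p : ℤ_[p]) ^ (u - 1).valuation := by
  obtain ⟨t, ht⟩ := hb
  have hs := PadicInt.unitCoeff_spec hu
  set v := (u - 1).valuation with hv
  set w := PadicInt.unitCoeff hu with hw
  have h1 : b - 1 = (p : ℤ_[p]) ^ v * ((w : ℤ_[p]) - (p : ℤ_[p]) ^ (c - v) * t) := by
    have h2 : (p : ℤ_[p]) ^ c = (p : ℤ_[p]) ^ v * (p : ℤ_[p]) ^ (c - v) := by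
      rw [← pow_add]; congr 1; omega
    have h3 : b - 1 = (u - 1) - (u - b) := by ring
    rw [h3, ht, h2]
    nth_rewrite 1 [hs]
    ring
  have h4 : IsUnit ((w : ℤ_[p]) - (p : ℤ_[p]) ^ (c - v) * t) := by
    have h5 : (p : ℤ_[p]) ^ (c - v) * t ∈ nonunits ℤ_[p] := by
      rw [PadicInt.mem_nonunits]
      calc ‖(p : ℤ_[p]) ^ (c - v) * t‖ = ‖(p : ℤ_[p])‖ ^ (c - v) * ‖t‖ := by
            rw [norm_mul, norm_pow]
        _ ≤ ‖(p : ℤ_[p])‖ ^ (c - v) * 1 := by
            gcongr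
            exact PadicInt.norm_le_one t
        _ < 1 := by
            rw [mul_one]
            have hlt : ‖(p : ℤ_[p])‖ < 1 := by
              rw [PadicInt.norm_p]
              exact inv_lt_one_of_one_lt₀ (by exact_mod_cast (Fact.out : p.Prime).one_lt)
            exact pow_lt_one₀ (norm_nonneg _) hlt (by omega)
    by_contra h6
    have h7 : ((w : ℤ_[p]) - (p : ℤ_[p]) ^ (c - v) * t) + (p : ℤ_[p]) ^ (c - v) * t ∈
        nonunits ℤ_[p] := IsLocalRing.nonunits_add h6 h5
    rw [sub_add_cancel] at h7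
    exact h7 w.isUnit
  obtain ⟨z, hz⟩ := h4
  refine ⟨((z⁻¹ : ℤ_[p]ˣ) : ℤ_[p]), ?_⟩
  rw [h1, ← hz, mul_assoc, Units.mul_inv, mul_one]

theorem s_tor : Pool.Agent.Helper17.TH.S_TOR := by
  intro p _ K _ _ χ η₁ d hd hχ hη F _ _ O _ _ j hj hjp c hc
  obtain ⟨g, hg1, hg2⟩ := exists_good p K d hd η₁ hη
  set u : ℤ_[p] := ((cyc p K g) : ℤ_[p]) ^ d with hu
  have hu1 : u - 1 ≠ 0 := by
    intro h
    apply hg2
    apply Units.ext
    rw [Units.val_pow_eq_pow_val, Units.val_one]
    exact sub_eq_zero.1 h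
  refine ⟨g, (u - 1).valuation, hg1, fun m => ?_⟩
  set W := Units.torsionOrder (F m) with hW
  set n := W + (u - 1).valuation + 1 with hn
  set a := ((cyc p K g).val.toZModPow n).val with ha
  refine ⟨a, fun x k hx => ?_, ?_⟩
  · -- the units of `p`-power order
    have h1 : (x.toMul : (𝓞 (F m))ˣ) ^ p ^ k = 1 := by
      have := congrArg Additive.toMul hx
      simpa using this
    have hmem : (x.toMul : (𝓞 (F m))ˣ) ∈ Units.torsion (F m) := by
      rw [Units.torsion, CommGroup.mem_torsion, isOfFinOrder_iff_pow_eq_one]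
      exact ⟨p ^ k, pow_pos (Fact.out : p.Prime).pos k, h1⟩
    have h2 : orderOf (x.toMul : (𝓞 (F m))ˣ) ∣ W := by
      have h3 : orderOf (⟨_, hmem⟩ : Units.torsion (F m)) ∣ W := orderOf_dvd_natCard _
      rwa [← Subgroup.orderOf_coe] at h3
    have hWpos : 0 < W := Units.torsionOrder_pos (F m)
    have h4 : (x.toMul : (𝓞 (F m))ˣ) ^ p ^ n = 1 := by
      obtain ⟨i, hi, hi2⟩ := (Nat.dvd_prime_pow (Fact.out : p.Prime)).1 (orderOf_dvd_of_pow_eq_one h1)
      have h5 : p ^ i ≤ W := by rw [← hi2]; exact Nat.le_of_dvd hWpos h2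
      have h6 : i < W := lt_of_lt_of_le (Nat.lt_pow_self (Fact.out : p.Prime).one_lt) h5
      rw [← orderOf_dvd_iff_pow_eq_one, hi2]
      exact pow_dvd_pow p (by omega)
    have h7 : (((x.toMul : (𝓞 (F m))ˣ) : F m) : AlgebraicClosure K) ^ p ^ n = 1 := by
      have h8 := congrArg (fun y : (𝓞 (F m))ˣ => (((y : 𝓞 (F m)) : F m) : AlgebraicClosure K)) h4
      simpa using h8
    have h9 := cyc_spec p K g n _ h7
    rw [← ha] at h9
    apply Additive.toMul.injective
    apply Units.ext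
    apply RingOfIntegers.ext
    apply Subtype.ext
    have h10 : (((((ug (F m) g x).toMul : (𝓞 (F m))ˣ) : 𝓞 (F m)) : F m) : AlgebraicClosure K) =
        g (((x.toMul : (𝓞 (F m))ˣ) : F m) : AlgebraicClosure K) := by
      exact AlgEquiv.restrictNormal_commutes g (F m) _
    rw [h10, h9]
    simp
  · -- the divisibility in `O`
    have h1 : (p : ℤ_[p]) ^ n ∣ ((cyc p K g) : ℤ_[p]) - (a : ℤ_[p]) := by
      rw [← Ideal.mem_span_singleton, ← PadicInt.ker_toZModPow, RingHom.mem_ker, map_sub,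
        map_natCast, ha, ZMod.natCast_zmod_val, sub_self]
    have h2 : (p : ℤ_[p]) ^ n ∣ u - (a : ℤ_[p]) ^ d :=
      h1.trans (sub_dvd_pow_sub_pow _ _ d)
    have h3 := exists_dvd p u hu1 n (by omega) ((a : ℤ_[p]) ^ d) h2
    have h4 : (c g) ^ d = 1 := by
      apply hj
      rw [map_pow, hc g, map_one, ← Units.val_pow_eq_pow_val, ← MonoidHom.pow_apply, hχ]
      rfl
    have h5 : c g - (a : O) ∣ (a : O) ^ d - 1 := by
      have h6 := sub_dvd_pow_sub_pow (c g) (a : O) d
      rw [h4] at h6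
      rwa [← dvd_neg, neg_sub]
    have h7 : (a : O) ^ d - 1 ∣ (p : O) ^ (u - 1).valuation := by
      have h8 := map_dvd (algebraMap ℤ_[p] O) h3
      simpa using h8
    exact h5.trans h7

end Pool.Agent.Helper65.TH
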