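import Pool.Agent.Helper38.TH.Goals4

/-!
# Project TH: `G4_NV`
-/

set_option autoImplicit false

namespace Pool.Agent.Helper65.TH

open Finset Pool.Agent.Helper17.PP Pool.Agent.Helper17.PP0 Pool.Agent.Helper17.PP2
  Pool.Agent.Helper11.M3 Pool.Agent.Helper38.TH

theorem rpow_up {K K' : ℕ} (h1 : 1 ≤ K) (hK : K ≤ K') (m : ℕ) :
    (2 : ℝ) ^ (-(m : ℝ) / K) ≤ (2 : ℝ) ^ (-(m : ℝ) / K') := by
  have h0 : (0 : ℝ) < K := by exact_mod_cast (by omega : 0 < K)
  have h2 : (K : ℝ) ≤ K' := by exact_mod_cast hK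
  apply Real.rpow_le_rpow_of_exponent_le (by norm_num)
  rw [neg_div, neg_div]
  exact neg_le_neg (div_le_div_of_nonneg_left (by positivity) h0 h2)

theorem bnd_up {K K' : ℕ} (h1 : 1 ≤ K) (hK : K ≤ K') (i j : ℕ) {a E : ℝ} (ha : 1 ≤ a)
    (hE : 0 ≤ E) :
    (K : ℝ) * 2 ^ (i + j) * a ^ K * (2 : ℝ) ^ (-(min i j : ℝ) / K) * E ≤
      K' * 2 ^ (i + j) * a ^ K' * (2 : ℝ) ^ (-(min i j : ℝ) / K') * E := by
  have h2 : (K : ℝ) ≤ K' := by exact_mod_cast hK
  have h3 : a ^ K ≤ a ^ K' := pow_le_pow_right₀ ha hK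
  have h4 : (2 : ℝ) ^ (-(min i j : ℝ) / K) ≤ (2 : ℝ) ^ (-(min i j : ℝ) / K') := by
    have := rpow_up h1 hK (min i j)
    simpa using this
  have h5 : (0 : ℝ) ≤ a := by linarith
  gcongr

theorem log_up {K K' : ℕ} (h1 : 1 ≤ K) (hK : K ≤ K') {x : ℝ} (hx : 0 ≤ x) :
    (1 / K' : ℝ) * x - K' ≤ (1 / K : ℝ) * x - K := by
  have h0 : (0 : ℝ) < K := by exact_mod_cast (by omega : 0 < K)
  have h2 : (K : ℝ) ≤ K' := by exact_mod_cast hK
  have h3 : (1 / K' : ℝ) ≤ 1 / K := one_div_le_one_div_of_le h0 h2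
  have h4 := mul_le_mul_of_nonneg_right h3 hx
  linarith

theorem log_div_nonneg {m n : ℕ} (hm : 1 ≤ m) (hn : m ≤ n) : 0 ≤ Real.log ((n : ℝ) / m) := by
  apply Real.log_nonneg
  rw [le_div_iff₀ (by exact_mod_cast hm)]
  simpa using (by exact_mod_cast hn : (m : ℝ) ≤ n)

section

variable {p : ℕ} [Fact p.Prime] {B B₀ k U Λ C : Type} [Field k] [Fintype k] [Algebra (ZMod p) k]
    [AddCommGroup U] [Module k U] [Fintype U] [AddCommGroup Λ] [Module k Λ] [Fintype Λ]
    [AddCommGroup C] (S : Sys p B B₀ k U Λ C)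

theorem nm_pos (D : Finset B) : 1 ≤ S.nm D := by
  unfold Sys.nm
  exact Nat.one_le_iff_ne_zero.2 (Finset.prod_ne_zero_iff.2 fun q _ => by
    have := S.two_le q
    omega)

theorem loglog_nonneg (D : Finset B) : 0 ≤ Real.log (Real.log ((S.nm D : ℝ) + 3)) := by
  apply Real.log_nonneg
  have h1 : (1 : ℝ) ≤ S.nm D := by exact_mod_cast nm_pos S D
  rw [Real.le_log_iff_exp_le (by linarith)]
  have h2 := Real.exp_one_lt_d9
  linarith

open Classical in
/-- The lower bound of Mertens for the smaller set of pivots. -/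
theorem merN_up {κ : ℝ} (hκ : 0 < κ) {K₃ : ℝ}
    (hM : ∀ m n : ℕ, 1 ≤ m → m ≤ n → κ * Real.log (n / m) - K₃ ≤
      ∑ q ∈ S.below n with ¬ S.spl q ∧ m ≤ S.bl q, (1 : ℝ) / S.N q)
    {V : B → Prop} {ρ K₂ : ℝ} (hS : Spr S V ρ K₂) (hρ : 8 * ((Fintype.card k : ℝ) + 1) * ρ ≤ κ)
    {K' : ℕ} (h1 : 2 / κ ≤ K') (h2 : K₃ + K₂ ≤ K') {m n : ℕ} (hm : 1 ≤ m) (hn : m ≤ n) :
    (1 / K' : ℝ) * Real.log (n / m) - K' ≤
      ∑ q ∈ S.below n with (¬ S.spl q ∧ ¬ V q) ∧ m ≤ S.bl q, (1 : ℝ) / S.N q := by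
  have hl := log_div_nonneg hm hn
  have h3 := hM m n hm hn
  have h4 := hS.up m n hm hn
  have h5 : ∑ q ∈ S.below n with ¬ S.spl q ∧ m ≤ S.bl q, (1 : ℝ) / S.N q ≤
      ∑ q ∈ S.below n with (¬ S.spl q ∧ ¬ V q) ∧ m ≤ S.bl q, (1 : ℝ) / S.N q +
      ∑ q ∈ S.below n with V q ∧ m ≤ S.bl q, (1 : ℝ) / S.N q := by
    rw [Finset.sum_filter, Finset.sum_filter, Finset.sum_filter, ← Finset.sum_add_distrib]
    apply Finset.sum_le_sum
    intro q _
    have h6 : (0 : ℝ) ≤ 1 / S.N q := by positivity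
    by_cases a : S.spl q <;> by_cases b : V q <;> by_cases c : m ≤ S.bl q <;>
      simp [a, b, c]
  have hρ0 := hS.nonneg
  have hq : (0 : ℝ) ≤ Fintype.card k := by positivity
  have h7 : ρ ≤ κ / 2 := by nlinarith
  have hK0 : (0 : ℝ) < K' := lt_of_lt_of_le (by positivity) h1
  have h8 : (1 / K' : ℝ) ≤ κ / 2 := by
    rw [div_le_iff₀ hK0]
    have : 2 / κ * κ ≤ K' * κ := mul_le_mul_of_nonneg_right h1 hκ.le
    rw [div_mul_cancel₀ _ hκ.ne'] at this
    linarith
  have h9 := mul_le_mul_of_nonneg_right h8 hl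
  have h10 := mul_le_mul_of_nonneg_right h7 hl
  linarith

end

open Classical in
theorem g4_nv : G4_NV := by
  intro p _ B B₀ k U Λ C _ _ _ _ _ _ _ _ _ _ _ S ψ e g K H κ hκ hM V ρ K₂ hS hρ
  obtain ⟨K₃, hM⟩ := hM
  obtain ⟨K', h1, h2, h3⟩ : ∃ K' : ℕ, K ≤ K' ∧ 2 / κ ≤ (K' : ℝ) ∧ K₃ + K₂ ≤ (K' : ℝ) := by
    obtain ⟨a, ha⟩ := exists_nat_ge (2 / κ)
    obtain ⟨b, hb⟩ := exists_nat_ge (K₃ + K₂)
    refine ⟨K + a + b, by omega, ?_, ?_⟩ <;> push_cast <;>
      linarith [(Nat.cast_nonneg a : (0 : ℝ) ≤ a), (Nat.cast_nonneg b : (0 : ℝ) ≤ b),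
        (Nat.cast_nonneg K : (0 : ℝ) ≤ K)]
  have hK := H.one_le
  have hKr : (K : ℝ) ≤ K' := by exact_mod_cast h1
  have hg : ∀ Y, 0 ≤ g Y := fun Y => le_trans zero_le_one (H.g_one Y)
  refine ⟨K', ?_⟩
  exact
    { one_le := hK.trans h1
      ψ_ne := H.ψ_ne
      che := fun j hj => (H.che j hj).trans (by gcongr)
      g_one := H.g_one
      g_mono := fun Y X hYX => (H.g_mono Y X hYX).trans
        (mul_le_mul_of_nonneg_right hKr (hg X))
      ht := fun f hf Y hY P => (H.ht f hf Y hY P).trans (by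
        have := hg Y
        gcongr)
      mers := fun m n hm hn => (log_up hK h1 (log_div_nonneg hm hn)).trans (H.mers m n hm hn)
      e_ne := H.e_ne
      cas := Or.inr ⟨fun q h => h.1, rfl⟩
      merN := fun m n hm hn => (merN_up S hκ hM hS hρ h2 h3 hm hn).trans (le_of_eq
        (Finset.sum_congr (by ext; simp only [Finset.mem_filter]) fun _ _ => rfl))
      sm := fun D y χ n hn hD hI hne hU => by
        refine le_trans ?_ (H.sm D y χ n hn hD hI hne hU)
        have a1 := log_up hK h1 (Real.log_nonneg (by exact_mod_cast hn : (1 : ℝ) ≤ n))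
        have a2 := mul_le_mul_of_nonneg_right hKr (loglog_nonneg S D)
        linarith
      kum := H.kum
      bl₁ := fun i j t ε y c α β X hj ht hX hα hβ hD =>
        (H.bl₁ i j t ε y c α β X hj ht hX hα hβ hD).trans
          (bnd_up hK h1 i j (by linarith [(Nat.cast_nonneg i : (0 : ℝ) ≤ i)]) (by positivity))
      bl₄ := fun i j y c α β X hj hX hα hβ hD => by
        refine le_trans (le_of_eq ?_) ((H.bl₄ i j y c (fun q => if V q then 0 else α q) β X hj hX
          (fun q => by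
            beta_reduce
            split_ifs
            · simp
            · exact hα q) hβ
          (fun D hD' => ⟨(hD D hD').1, fun q hq => ⟨((hD D hD').2 q hq).1,
            Or.inr fun _ h => h, ((hD D hD').2 q hq).2.2⟩⟩)).trans
          (bnd_up hK h1 i j (by linarith [(Nat.cast_nonneg i : (0 : ℝ) ≤ i)]) (by positivity)))
        congr 1
        rw [Finset.sum_filter, Finset.sum_filter]
        refine Finset.sum_congr rfl fun q _ => ?_
        by_cases a : S.spl q <;> by_cases b : V q <;> simp [a, b]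
      bl₅ := fun i j t s y α β X hi hj _ ht hy hs hX hα hβ => by
        refine le_trans (le_of_eq ?_) ((H.bl₅ i j t s y (fun q => if V q then 0 else α q) β X hi hj
          (Or.inr fun _ h => h) ht hy hs hX (fun q => by
            beta_reduce
            split_ifs
            · simp
            · exact hα q) hβ).trans
          (bnd_up hK h1 i j (by
            have : (1 : ℝ) ≤ i := by exact_mod_cast hi
            linarith [(Nat.cast_nonneg j : (0 : ℝ) ≤ j)]) (by positivity)))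
        congr 1
        rw [Finset.sum_filter, Finset.sum_filter]
        refine Finset.sum_congr rfl fun q _ => ?_
        by_cases a : S.spl q <;> by_cases b : V q <;> simp [a, b]
      nspl := fun q h => h.1
      htG := fun f hf Y hY P => (H.htG f hf Y hY P).trans (by
        have := hg Y
        gcongr)
      bl₁G := fun i j t ε y c α β X hj ht hX hα hβ hD =>
        (H.bl₁G i j t ε y c α β X hj ht hX hα hβ hD).trans
          (bnd_up hK h1 i j (by linarith [(Nat.cast_nonneg i : (0 : ℝ) ≤ i)]) (by positivity))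
      bl₄G := fun i j y c α β X hj hX hα hβ hD => by
        refine le_trans (le_of_eq ?_) ((H.bl₄G i j y c (fun q => if V q then 0 else α q) β X hj hX
          (fun q => by
            beta_reduce
            split_ifs
            · simp
            · exact hα q) hβ hD).trans
          (bnd_up hK h1 i j (by linarith [(Nat.cast_nonneg i : (0 : ℝ) ≤ i)]) (by positivity)))
        congr 1
        rw [Finset.sum_filter, Finset.sum_filter]
        refine Finset.sum_congr rfl fun q _ => ?_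
        by_cases a : S.spl q <;> by_cases b : V q <;> simp [a, b] }

end Pool.Agent.Helper65.TH
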